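import Pool.Agent.Work.MP_3242df_h20.LemmaH

set_option autoImplicit false

open scoped Matrix Real Topology ComplexOrder
open MeasureTheory

namespace Pool.LT20

theorem dbl (a z x y : ℝ) :
    (x - z) * (y - z) * ∫ s in (0 : ℝ)..(1 + a), ∫ s' in (0 : ℝ)..(1 - a),
      Real.cos (s * x + s' * y + (2 - s - s') * z)
    = Real.cos ((1 + a) * x + (1 - a) * z) + Real.cos ((1 + a) * z + (1 - a) * y)
      - Real.cos ((1 + a) * x + (1 - a) * y) - Real.cos (2 * z) := by
  have inner : ∀ s : ℝ, (y - z) * ∫ s' in (0 : ℝ)..(1 - a),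
      Real.cos (s * x + s' * y + (2 - s - s') * z)
      = Real.sin (s * x + (1 - a) * y + (2 - s - (1 - a)) * z)
        - Real.sin (s * x + (2 - s) * z) := by
    intro s
    have hd : ∀ t : ℝ, HasDerivAt (fun t : ℝ => Real.sin (s * x + t * y + (2 - s - t) * z))
        ((y - z) * Real.cos (s * x + t * y + (2 - s - t) * z)) t := by
      intro t
      have h1 : HasDerivAt (fun t : ℝ => s * x + t * y + (2 - s - t) * z) (y - z) t := by
        have h2 : HasDerivAt (fun t : ℝ => s * x + (2 - s) * z + t * (y - z)) (y - z) t := by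
          have := ((hasDerivAt_id t).mul_const (y - z)).const_add (s * x + (2 - s) * z)
          simpa using this
        refine h2.congr_of_eventuallyEq (Filter.Eventually.of_forall fun u => ?_)
        ring
      exact h1.sin.congr_deriv (mul_comm _ _)
    rw [← intervalIntegral.integral_const_mul]
    rw [intervalIntegral.integral_eq_sub_of_hasDerivAt (fun t _ => hd t)]
    · ring_nf
    · exact (by fun_prop : Continuous fun t : ℝ =>
        (y - z) * Real.cos (s * x + t * y + (2 - s - t) * z)).intervalIntegrable _ _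
  have e1 : (x - z) * (y - z) * ∫ s in (0 : ℝ)..(1 + a), ∫ s' in (0 : ℝ)..(1 - a),
      Real.cos (s * x + s' * y + (2 - s - s') * z)
      = ∫ s in (0 : ℝ)..(1 + a), (x - z) * (Real.sin (s * x + (1 - a) * y + (2 - s - (1 - a)) * z)
        - Real.sin (s * x + (2 - s) * z)) := by
    rw [mul_assoc, ← intervalIntegral.integral_const_mul, ← intervalIntegral.integral_const_mul]
    refine intervalIntegral.integral_congr fun s _ => ?_
    show (x - z) * ((y - z) * _) = _
    rw [inner s]
  rw [e1]
  have hd : ∀ s : ℝ, HasDerivAt (fun s : ℝ =>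
      -Real.cos (s * x + (1 - a) * y + (2 - s - (1 - a)) * z) + Real.cos (s * x + (2 - s) * z))
      ((x - z) * (Real.sin (s * x + (1 - a) * y + (2 - s - (1 - a)) * z)
        - Real.sin (s * x + (2 - s) * z))) s := by
    intro s
    have h1 : HasDerivAt (fun s : ℝ => s * x + (1 - a) * y + (2 - s - (1 - a)) * z) (x - z) s := by
      have h2 : HasDerivAt (fun s : ℝ => (1 - a) * y + (2 - (1 - a)) * z + s * (x - z)) (x - z) s := by
        have := ((hasDerivAt_id s).mul_const (x - z)).const_add ((1 - a) * y + (2 - (1 - a)) * z)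
        simpa using this
      refine h2.congr_of_eventuallyEq (Filter.Eventually.of_forall fun u => ?_)
      ring
    have h3 : HasDerivAt (fun s : ℝ => s * x + (2 - s) * z) (x - z) s := by
      have h2 : HasDerivAt (fun s : ℝ => 2 * z + s * (x - z)) (x - z) s := by
        have := ((hasDerivAt_id s).mul_const (x - z)).const_add (2 * z)
        simpa using this
      refine h2.congr_of_eventuallyEq (Filter.Eventually.of_forall fun u => ?_)
      ring
    have h4 := h1.cos.neg.add h3.cos
    refine h4.congr_deriv ?_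
    ring
  rw [intervalIntegral.integral_eq_sub_of_hasDerivAt (fun t _ => hd t)]
  · have r1 : (1 + a) * x + (1 - a) * y + (2 - (1 + a) - (1 - a)) * z
        = (1 + a) * x + (1 - a) * y := by ring
    have r2 : (1 + a) * x + (2 - (1 + a)) * z = (1 + a) * x + (1 - a) * z := by ring
    have r3 : 0 * x + (1 - a) * y + (2 - 0 - (1 - a)) * z = (1 + a) * z + (1 - a) * y := by ring
    have r4 : 0 * x + (2 - 0) * z = 2 * z := by ring
    rw [r1, r2, r3, r4]
    ring
  · exact (by fun_prop : Continuous fun s : ℝ =>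
      (x - z) * (Real.sin (s * x + (1 - a) * y + (2 - s - (1 - a)) * z)
        - Real.sin (s * x + (2 - s) * z))).intervalIntegrable _ _

theorem afun_eq (a z x y : ℝ) :
    (x - z) * (y - z) * ∫ s in (0 : ℝ)..(1 + a), ∫ s' in (0 : ℝ)..(1 - a),
      Real.cos ((s + s') / 2 * (x + y) + (2 - (s + s')) * z) * Real.cos ((s - s') / 2 * (x - y))
    = Pool.LT.Afun a z x y := by
  have h1 : ∀ s s' : ℝ, Real.cos ((s + s') / 2 * (x + y) + (2 - (s + s')) * z)
      * Real.cos ((s - s') / 2 * (x - y))
      = (1 / 2) * Real.cos (s * x + s' * y + (2 - s - s') * z)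
        + (1 / 2) * Real.cos (s * y + s' * x + (2 - s - s') * z) := by
    intro s s'
    have e1 : s * x + s' * y + (2 - s - s') * z
        = ((s + s') / 2 * (x + y) + (2 - (s + s')) * z) + (s - s') / 2 * (x - y) := by ring
    have e2 : s * y + s' * x + (2 - s - s') * z
        = ((s + s') / 2 * (x + y) + (2 - (s + s')) * z) - (s - s') / 2 * (x - y) := by ring
    rw [e1, e2, Real.cos_add (_ + _) ((s - s') / 2 * (x - y)), Real.cos_sub]
    ring
  have cont : ∀ x y : ℝ, Continuous fun s : ℝ => ∫ s' in (0 : ℝ)..(1 - a),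
      Real.cos (s * x + s' * y + (2 - s - s') * z) := by
    intro x y
    exact intervalIntegral.continuous_parametric_intervalIntegral_of_continuous'
      (f := fun s s' : ℝ => Real.cos (s * x + s' * y + (2 - s - s') * z))
      (by unfold Function.uncurry; fun_prop) _ _
  have h2 : (∫ s in (0 : ℝ)..(1 + a), ∫ s' in (0 : ℝ)..(1 - a),
      Real.cos ((s + s') / 2 * (x + y) + (2 - (s + s')) * z) * Real.cos ((s - s') / 2 * (x - y)))
      = (1 / 2) * (∫ s in (0 : ℝ)..(1 + a), ∫ s' in (0 : ℝ)..(1 - a),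
          Real.cos (s * x + s' * y + (2 - s - s') * z))
        + (1 / 2) * (∫ s in (0 : ℝ)..(1 + a), ∫ s' in (0 : ℝ)..(1 - a),
          Real.cos (s * y + s' * x + (2 - s - s') * z)) := by
    rw [← intervalIntegral.integral_const_mul, ← intervalIntegral.integral_const_mul,
      ← intervalIntegral.integral_add]
    · refine intervalIntegral.integral_congr fun s _ => ?_
      show (∫ s' in (0 : ℝ)..(1 - a), _) = _
      simp_rw [h1]
      rw [intervalIntegral.integral_add, intervalIntegral.integral_const_mul,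
        intervalIntegral.integral_const_mul]
      · exact (by fun_prop : Continuous fun s' : ℝ =>
          (1 / 2) * Real.cos (s * x + s' * y + (2 - s - s') * z)).intervalIntegrable _ _
      · exact (by fun_prop : Continuous fun s' : ℝ =>
          (1 / 2) * Real.cos (s * y + s' * x + (2 - s - s') * z)).intervalIntegrable _ _
    · exact ((cont x y).const_smul (1 / 2 : ℝ)).intervalIntegrable _ _
    · exact ((cont y x).const_smul (1 / 2 : ℝ)).intervalIntegrable _ _
  rw [h2]
  have d1 := dbl a z x y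
  have d2 := dbl a z y x
  have : (x - z) * (y - z) * ((1 / 2) * (∫ s in (0 : ℝ)..(1 + a), ∫ s' in (0 : ℝ)..(1 - a),
          Real.cos (s * x + s' * y + (2 - s - s') * z))
        + (1 / 2) * (∫ s in (0 : ℝ)..(1 + a), ∫ s' in (0 : ℝ)..(1 - a),
          Real.cos (s * y + s' * x + (2 - s - s') * z)))
      = (1 / 2) * ((x - z) * (y - z) * (∫ s in (0 : ℝ)..(1 + a), ∫ s' in (0 : ℝ)..(1 - a),
          Real.cos (s * x + s' * y + (2 - s - s') * z)))
        + (1 / 2) * ((y - z) * (x - z) * (∫ s in (0 : ℝ)..(1 + a), ∫ s' in (0 : ℝ)..(1 - a),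
          Real.cos (s * y + s' * x + (2 - s - s') * z))) := by ring
  rw [this, d1, d2]
  unfold Pool.LT.Afun
  have q1 : (1 - a) * x + (1 + a) * y = (1 + a) * y + (1 - a) * x := by ring
  have q2 : (1 - a) * x + (1 + a) * z = (1 + a) * z + (1 - a) * x := by ring
  have q3 : (1 - a) * z + (1 + a) * y = (1 + a) * y + (1 - a) * z := by ring
  rw [q1, q2, q3]
  ring

theorem KP.aker {a z : ℝ} (ha0 : 0 ≤ a) (ha1 : a ≤ 1)
    (hz : z ∈ Set.Ioo (-(π / 4)) (π / 4)) :
    KP (Set.Ioo (-(π / 4)) (π / 4)) (fun x y => Pool.LT.Afun a z x y / Real.cos (x + y)) := by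
  have hpi := Real.pi_pos
  have hpos : ∀ x ∈ Set.Ioo (-(π / 4)) (π / 4), ∀ y ∈ Set.Ioo (-(π / 4)) (π / 4),
      0 < Real.cos (x + y) := fun x hx y hy =>
    Real.cos_pos_of_mem_Ioo ⟨by linarith [hx.1, hy.1], by linarith [hx.2, hy.2]⟩
  have k1 : ∀ s ∈ Set.Ioo (0 : ℝ) (1 + a), ∀ s' ∈ Set.Ioo (0 : ℝ) (1 - a),
      KP (Set.Ioo (-(π / 4)) (π / 4)) (fun x y =>
        Real.cos ((s + s') / 2 * (x + y) + (2 - (s + s')) * z) / Real.cos (x + y)
          * Real.cos ((s - s') / 2 * (x - y))) := by
    intro s hs s' hs'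
    refine (KP.lemmaH (p := (s + s') / 2) (phi := (2 - (s + s')) * z)
      ⟨by linarith [hs.1, hs'.1], by linarith [hs.2, hs'.2]⟩ ?_).mul (KP.cos_sub _ _)
    have h2 : 0 < 2 - (s + s') := by linarith [hs.2, hs'.2]
    have h3 : |z| ≤ π / 4 := abs_le.2 ⟨hz.1.le, hz.2.le⟩
    rw [abs_mul, abs_of_pos h2]
    calc (2 - (s + s')) * |z| ≤ (2 - (s + s')) * (π / 4) :=
          mul_le_mul_of_nonneg_left h3 h2.le
      _ = (1 - (s + s') / 2) * (π / 2) := by ring
  have k2 : ∀ s ∈ Set.Ioo (0 : ℝ) (1 + a), KP (Set.Ioo (-(π / 4)) (π / 4)) (fun x y =>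
        ∫ s' in (0 : ℝ)..(1 - a),
        Real.cos ((s + s') / 2 * (x + y) + (2 - (s + s')) * z) / Real.cos (x + y)
          * Real.cos ((s - s') / 2 * (x - y))) := by
    intro s hs
    refine KP.integral (by linarith) (fun s' hs' => k1 s hs s' hs') fun x hx y hy => ?_
    have : Continuous fun s' : ℝ =>
        Real.cos ((s + s') / 2 * (x + y) + (2 - (s + s')) * z) / Real.cos (x + y)
          * Real.cos ((s - s') / 2 * (x - y)) := by
      have h0 := (hpos x hx y hy).ne'
      fun_prop
    exact this.intervalIntegrable _ _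
  have k3 : KP (Set.Ioo (-(π / 4)) (π / 4)) (fun x y =>
        ∫ s in (0 : ℝ)..(1 + a), ∫ s' in (0 : ℝ)..(1 - a),
        Real.cos ((s + s') / 2 * (x + y) + (2 - (s + s')) * z) / Real.cos (x + y)
          * Real.cos ((s - s') / 2 * (x - y))) := by
    refine KP.integral (by linarith) k2 fun x hx y hy => ?_
    have : Continuous fun s : ℝ => ∫ s' in (0 : ℝ)..(1 - a),
        Real.cos ((s + s') / 2 * (x + y) + (2 - (s + s')) * z) / Real.cos (x + y)
          * Real.cos ((s - s') / 2 * (x - y)) := by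
      refine intervalIntegral.continuous_parametric_intervalIntegral_of_continuous'
        (f := fun s s' : ℝ => Real.cos ((s + s') / 2 * (x + y) + (2 - (s + s')) * z)
          / Real.cos (x + y) * Real.cos ((s - s') / 2 * (x - y))) ?_ _ _
      unfold Function.uncurry
      fun_prop
    exact this.intervalIntegrable _ _
  refine ((KP.rankOne _ (fun x => x - z)).mul k3).congr fun x hx y hy => ?_
  have h0 := (hpos x hx y hy).ne'
  have h1 : (∫ s in (0 : ℝ)..(1 + a), ∫ s' in (0 : ℝ)..(1 - a),
        Real.cos ((s + s') / 2 * (x + y) + (2 - (s + s')) * z) / Real.cos (x + y)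
          * Real.cos ((s - s') / 2 * (x - y)))
      = (Real.cos (x + y))⁻¹ * (∫ s in (0 : ℝ)..(1 + a), ∫ s' in (0 : ℝ)..(1 - a),
        Real.cos ((s + s') / 2 * (x + y) + (2 - (s + s')) * z)
          * Real.cos ((s - s') / 2 * (x - y))) := by
    rw [← intervalIntegral.integral_const_mul]
    refine intervalIntegral.integral_congr fun s _ => ?_
    show (∫ s' in (0 : ℝ)..(1 - a), _) = _ * (∫ s' in (0 : ℝ)..(1 - a), _)
    rw [← intervalIntegral.integral_const_mul]
    refine intervalIntegral.integral_congr fun s' _ => ?_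
    show _ / _ * _ = _ * (_ * _)
    rw [div_eq_mul_inv]
    ring
  rw [h1, ← afun_eq]
  rw [div_eq_mul_inv]
  ring

end Pool.LT20
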