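import Mathlib

set_option autoImplicit false

open scoped Matrix Real Topology
open MeasureTheory

namespace Pool.LT20

/-- A real kernel whose finite matrices on a set are positive semidefinite. -/
def KP (s : Set ℝ) (K : ℝ → ℝ → ℝ) : Prop :=
  ∀ (n : ℕ) (x : Fin n → ℝ), (∀ i, x i ∈ s) →
    (Matrix.of fun i j => K (x i) (x j)).PosSemidef

theorem posSemidef_real_iff {n : ℕ} (A : Matrix (Fin n) (Fin n) ℝ) :
    A.PosSemidef ↔ (∀ i j, A i j = A j i) ∧ ∀ v : Fin n → ℝ, 0 ≤ ∑ i, ∑ j, v i * v j * A i j := by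
  rw [Matrix.posSemidef_iff_dotProduct_mulVec]
  constructor
  · rintro ⟨h1, h2⟩
    refine ⟨fun i j => ?_, fun v => ?_⟩
    · have := congrFun (congrFun h1 j) i
      simpa [Matrix.conjTranspose_apply] using this
    · have := h2 v
      simp only [star_trivial] at this
      refine this.trans_eq ?_
      simp only [dotProduct, Matrix.mulVec, Finset.mul_sum]
      exact Finset.sum_congr rfl fun i _ => Finset.sum_congr rfl fun j _ => by ring
  · rintro ⟨h1, h2⟩
    refine ⟨?_, fun v => ?_⟩
    · ext i j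
      simp [Matrix.conjTranspose_apply, h1 i j]
    · refine (h2 v).trans_eq ?_
      simp only [star_trivial, dotProduct, Matrix.mulVec, Finset.mul_sum]
      exact Finset.sum_congr rfl fun i _ => Finset.sum_congr rfl fun j _ => by ring

theorem KP_iff {s : Set ℝ} {K : ℝ → ℝ → ℝ} :
    KP s K ↔ (∀ x ∈ s, ∀ y ∈ s, K x y = K y x) ∧
      ∀ (n : ℕ) (x : Fin n → ℝ), (∀ i, x i ∈ s) → ∀ v : Fin n → ℝ,
        0 ≤ ∑ i, ∑ j, v i * v j * K (x i) (x j) := by
  constructor
  · intro h
    refine ⟨fun x hx y hy => ?_, fun n x hx v => ?_⟩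
    · have := ((posSemidef_real_iff _).1 (h 2 ![x, y] (by
        intro i; fin_cases i <;> simp [hx, hy]))).1 0 1
      simpa using this
    · have := ((posSemidef_real_iff _).1 (h n x hx)).2 v
      simpa using this
  · rintro ⟨h1, h2⟩ n x hx
    rw [posSemidef_real_iff]
    exact ⟨fun i j => h1 _ (hx i) _ (hx j), fun v => h2 n x hx v⟩

theorem KP.congr {s : Set ℝ} {K L : ℝ → ℝ → ℝ} (h : KP s K)
    (hKL : ∀ x ∈ s, ∀ y ∈ s, L x y = K x y) : KP s L := by
  intro n x hx
  have : (Matrix.of fun i j => L (x i) (x j)) = Matrix.of fun i j => K (x i) (x j) := by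
    ext i j
    exact hKL _ (hx i) _ (hx j)
  rw [this]
  exact h n x hx

theorem KP.mono {s t : Set ℝ} {K : ℝ → ℝ → ℝ} (h : KP s K) (hts : t ⊆ s) : KP t K :=
  fun n x hx => h n x fun i => hts (hx i)

theorem KP.mul {s : Set ℝ} {K L : ℝ → ℝ → ℝ} (hK : KP s K) (hL : KP s L) :
    KP s (fun x y => K x y * L x y) := by
  intro n x hx
  exact (hK n x hx).hadamard (hL n x hx)

theorem KP.add {s : Set ℝ} {K L : ℝ → ℝ → ℝ} (hK : KP s K) (hL : KP s L) :
    KP s (fun x y => K x y + L x y) := by
  intro n x hx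
  exact (hK n x hx).add (hL n x hx)

theorem KP.rankOne (s : Set ℝ) (f : ℝ → ℝ) : KP s (fun x y => f x * f y) := by
  rw [KP_iff]
  refine ⟨fun x _ y _ => mul_comm _ _, fun n x hx v => ?_⟩
  have : ∑ i, ∑ j, v i * v j * (f (x i) * f (x j)) = (∑ i, v i * f (x i)) ^ 2 := by
    rw [sq, Finset.sum_mul_sum]
    exact Finset.sum_congr rfl fun i _ => Finset.sum_congr rfl fun j _ => by ring
  rw [this]
  positivity

theorem KP.const (s : Set ℝ) {c : ℝ} (hc : 0 ≤ c) : KP s (fun _ _ => c) := by
  refine (KP.rankOne s (fun _ => Real.sqrt c)).congr fun x _ y _ => ?_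
  exact (Real.mul_self_sqrt hc).symm

theorem KP.const_mul {s : Set ℝ} {K : ℝ → ℝ → ℝ} (hK : KP s K) {c : ℝ} (hc : 0 ≤ c) :
    KP s (fun x y => c * K x y) := (KP.const s hc).mul hK

theorem KP.prod {s : Set ℝ} {m : ℕ} {K : ℕ → ℝ → ℝ → ℝ} (hK : ∀ j < m, KP s (K j)) :
    KP s (fun x y => ∏ j ∈ Finset.range m, K j x y) := by
  induction m with
  | zero => simpa using KP.const s zero_le_one
  | succ m ih =>
    simp only [Finset.prod_range_succ]
    exact (ih fun j hj => hK j (by omega)).mul (hK m (by omega))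

theorem KP.tendsto {s : Set ℝ} {K : ℕ → ℝ → ℝ → ℝ} {L : ℝ → ℝ → ℝ} (hK : ∀ n, KP s (K n))
    (hL : ∀ x ∈ s, ∀ y ∈ s, Filter.Tendsto (fun n => K n x y) Filter.atTop (𝓝 (L x y))) :
    KP s L := by
  rw [KP_iff]
  refine ⟨fun x hx y hy => ?_, fun n x hx v => ?_⟩
  · refine tendsto_nhds_unique (hL x hx y hy) ?_
    refine (hL y hy x hx).congr fun n => ?_
    exact ((KP_iff.1 (hK n)).1 y hy x hx)
  · refine ge_of_tendsto' (x := Filter.atTop)
      (f := fun m => ∑ i, ∑ j, v i * v j * K m (x i) (x j)) ?_ fun m => ?_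
    · refine tendsto_finsetSum _ fun i _ => tendsto_finsetSum _ fun j _ => ?_
      exact (hL _ (hx i) _ (hx j)).const_mul _
    · exact (KP_iff.1 (hK m)).2 n x hx v

theorem KP.integral {s : Set ℝ} {K : ℝ → ℝ → ℝ → ℝ} {a b : ℝ} (hab : a ≤ b)
    (hK : ∀ t ∈ Set.Ioo a b, KP s (K t))
    (hi : ∀ x ∈ s, ∀ y ∈ s, IntervalIntegrable (fun t => K t x y) volume a b) :
    KP s (fun x y => ∫ t in a..b, K t x y) := by
  rw [KP_iff]
  refine ⟨fun x hx y hy => ?_, fun n x hx v => ?_⟩
  · refine intervalIntegral.integral_congr_ae ?_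
    have h1 : ∀ᵐ t : ℝ, t ≠ b := by
      simp [ae_iff, measure_singleton]
    filter_upwards [h1] with t ht htm
    rw [Set.uIoc_of_le hab] at htm
    exact (KP_iff.1 (hK t ⟨htm.1, lt_of_le_of_ne htm.2 ht⟩)).1 x hx y hy
  · have h0 : ∑ i, ∑ j, v i * v j * (∫ t in a..b, K t (x i) (x j))
        = ∫ t in a..b, ∑ i, ∑ j, v i * v j * K t (x i) (x j) := by
      rw [intervalIntegral.integral_finsetSum]
      · refine Finset.sum_congr rfl fun i _ => ?_
        rw [intervalIntegral.integral_finsetSum]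
        · refine Finset.sum_congr rfl fun j _ => ?_
          rw [intervalIntegral.integral_const_mul]
        · intro j _
          exact (hi _ (hx i) _ (hx j)).const_mul _
      · intro i _
        have := IntervalIntegrable.sum (μ := volume) (a := a) (b := b) Finset.univ
          (f := fun j t => v i * v j * K t (x i) (x j))
          fun j _ => (hi _ (hx i) _ (hx j)).const_mul _
        have h3 : (∑ j, fun t => v i * v j * K t (x i) (x j))
            = fun t => ∑ j, v i * v j * K t (x i) (x j) := by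
          ext t
          simp [Finset.sum_apply]
        rw [h3] at this
        exact this
    rw [h0, intervalIntegral.integral_of_le hab, MeasureTheory.integral_Ioc_eq_integral_Ioo]
    refine MeasureTheory.setIntegral_nonneg measurableSet_Ioo fun t ht => ?_
    exact (KP_iff.1 (hK t ht)).2 n x hx v

/-- cosine of a difference -/
theorem KP.cos_sub (s : Set ℝ) (q : ℝ) : KP s (fun x y => Real.cos (q * (x - y))) := by
  refine ((KP.rankOne s (fun x => Real.cos (q * x))).add
    (KP.rankOne s (fun x => Real.sin (q * x)))).congr fun x _ y _ => ?_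
  rw [mul_sub, Real.cos_sub]

/-- Cauchy kernel -/
theorem KP.cauchy {s : Set ℝ} {u : ℝ → ℝ} (hu : ∀ x ∈ s, 0 < u x) :
    KP s (fun x y => 1 / (u x + u y)) := by
  rw [KP_iff]
  refine ⟨fun x _ y _ => by rw [add_comm], fun n x hx v => ?_⟩
  have hint : ∀ i j : Fin n, IntegrableOn (fun t : ℝ => Real.exp (-(u (x i) + u (x j)) * t))
      (Set.Ioi 0) := by
    intro i j
    exact integrableOn_exp_mul_Ioi (by linarith [hu _ (hx i), hu _ (hx j)]) 0
  have hval : ∀ i j : Fin n, ∫ t in Set.Ioi (0 : ℝ), Real.exp (-(u (x i) + u (x j)) * t)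
      = 1 / (u (x i) + u (x j)) := by
    intro i j
    rw [integral_exp_mul_Ioi (by linarith [hu _ (hx i), hu _ (hx j)]) 0]
    have : 0 < u (x i) + u (x j) := by linarith [hu _ (hx i), hu _ (hx j)]
    rw [mul_zero, Real.exp_zero]
    rw [neg_div, div_neg, neg_neg]
  have h0 : ∑ i, ∑ j, v i * v j * (1 / (u (x i) + u (x j)))
      = ∫ t in Set.Ioi (0 : ℝ), (∑ i, v i * Real.exp (-(u (x i)) * t)) ^ 2 := by
    have h1 : ∀ t : ℝ, (∑ i, v i * Real.exp (-(u (x i)) * t)) ^ 2
        = ∑ i, ∑ j, v i * v j * Real.exp (-(u (x i) + u (x j)) * t) := by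
      intro t
      rw [sq, Finset.sum_mul_sum]
      refine Finset.sum_congr rfl fun i _ => Finset.sum_congr rfl fun j _ => ?_
      have : -(u (x i) + u (x j)) * t = -(u (x i)) * t + -(u (x j)) * t := by ring
      rw [this, Real.exp_add]
      ring
    simp_rw [h1]
    rw [MeasureTheory.integral_finsetSum]
    · refine Finset.sum_congr rfl fun i _ => ?_
      rw [MeasureTheory.integral_finsetSum]
      · refine Finset.sum_congr rfl fun j _ => ?_
        rw [MeasureTheory.integral_const_mul, hval]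
      · intro j _
        exact (hint i j).const_mul _
    · intro i _
      refine MeasureTheory.integrable_finsetSum _ fun j _ => ?_
      exact (hint i j).const_mul _
  rw [h0]
  exact MeasureTheory.setIntegral_nonneg measurableSet_Ioi fun t _ => by positivity

end Pool.LT20
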