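import Pool.Agent.Work.MP_3242df_h20.AKer

set_option autoImplicit false

open scoped Matrix Real Topology ComplexOrder
open MeasureTheory

namespace Pool.LT20

theorem sum_rotate {n : ℕ} (f : Fin n → Fin n → Fin n → ℝ) :
    ∑ i, ∑ j, ∑ k, f j k i = ∑ i, ∑ j, ∑ k, f i j k := by
  rw [Finset.sum_comm]
  refine Finset.sum_congr rfl fun i _ => ?_
  rw [Finset.sum_comm]

theorem sum_re {n : ℕ} (r : Fin n → Fin n → Fin n → ℝ) (w : Fin n → Fin n → Fin n → ℂ) :
    (∑ i, ∑ j, ∑ k, ((r i j k : ℝ) : ℂ) * w i j k).re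
      = ∑ i, ∑ j, ∑ k, r i j k * (w i j k).re := by
  simp [Complex.re_sum]

/-- `N_a` -/
noncomputable def Na (a x y : ℝ) : ℝ := Real.cos (x + y) * (Real.cos (a * (x - y)) - Real.cos (x - y))

theorem cyc (a x y z : ℝ) :
    Na a x y + Na a y z + Na a z x
      = Pool.LT.Afun a z x y + Pool.LT.Afun a x y z + Pool.LT.Afun a y z x := by
  have h1 : ∀ u v : ℝ, Na a u v = (1 / 2) * (Real.cos ((1 + a) * u + (1 - a) * v)
      + Real.cos ((1 + a) * v + (1 - a) * u)) - (1 / 2) * (Real.cos (2 * u) + Real.cos (2 * v)) := by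
    intro u v
    have e1 : (1 + a) * u + (1 - a) * v = (u + v) + a * (u - v) := by ring
    have e2 : (1 + a) * v + (1 - a) * u = (u + v) - a * (u - v) := by ring
    have e3 : 2 * u = (u + v) + (u - v) := by ring
    have e4 : 2 * v = (u + v) - (u - v) := by ring
    rw [e1, e2, e3, e4]
    rw [Real.cos_add (u + v) (a * (u - v)), Real.cos_sub (u + v) (a * (u - v)),
      Real.cos_add (u + v) (u - v), Real.cos_sub (u + v) (u - v)]
    unfold Na
    ring
  rw [h1, h1, h1]
  unfold Pool.LT.Afun
  have q : ∀ u v : ℝ, (1 - a) * u + (1 + a) * v = (1 + a) * v + (1 - a) * u := fun u v => by ring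
  rw [q x y, q x z, q z y, q y z, q y x, q z x]
  ring

theorem core {n : ℕ} (th : Fin n → ℝ)
    (hth : ∀ i, th i ∈ Set.Ioo (-(π / 4)) (π / 4)) (sig : Matrix (Fin n) (Fin n) ℂ)
    (hs : sig.PosSemidef) (tau : Matrix (Fin n) (Fin n) ℂ)
    (ht : ∀ i j, tau i j = sig i j / ((Real.cos (th i + th j) : ℝ) : ℂ))
    {a : ℝ} (ha0 : 0 ≤ a) (ha1 : a ≤ 1) :
    0 ≤ ∑ i, ∑ j, ∑ k, Na a (th i) (th j) * (tau i j * tau j k * tau k i).re := by
  set T : Fin n → Fin n → Fin n → ℝ := fun i j k => (tau i j * tau j k * tau k i).re with hT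
  have hTrot : ∀ i j k, T j k i = T i j k := by
    intro i j k
    simp only [hT]
    congr 1
    ring
  have r1 : ∑ i, ∑ j, ∑ k, Na a (th j) (th k) * T i j k
      = ∑ i, ∑ j, ∑ k, Na a (th i) (th j) * T i j k := by
    rw [← sum_rotate fun i j k => Na a (th i) (th j) * T i j k]
    refine Finset.sum_congr rfl fun i _ => Finset.sum_congr rfl fun j _ =>
      Finset.sum_congr rfl fun k _ => ?_
    rw [hTrot i j k]
  have r2 : ∑ i, ∑ j, ∑ k, Na a (th k) (th i) * T i j k
      = ∑ i, ∑ j, ∑ k, Na a (th i) (th j) * T i j k := by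
    rw [← r1, ← sum_rotate fun i j k => Na a (th j) (th k) * T i j k]
    refine Finset.sum_congr rfl fun i _ => Finset.sum_congr rfl fun j _ =>
      Finset.sum_congr rfl fun k _ => ?_
    rw [hTrot i j k]
  have a1 : ∑ i, ∑ j, ∑ k, Pool.LT.Afun a (th i) (th j) (th k) * T i j k
      = ∑ i, ∑ j, ∑ k, Pool.LT.Afun a (th k) (th i) (th j) * T i j k := by
    rw [← sum_rotate fun i j k => Pool.LT.Afun a (th k) (th i) (th j) * T i j k]
    refine Finset.sum_congr rfl fun i _ => Finset.sum_congr rfl fun j _ =>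
      Finset.sum_congr rfl fun k _ => ?_
    rw [hTrot i j k]
  have a2 : ∑ i, ∑ j, ∑ k, Pool.LT.Afun a (th j) (th k) (th i) * T i j k
      = ∑ i, ∑ j, ∑ k, Pool.LT.Afun a (th k) (th i) (th j) * T i j k := by
    rw [← a1, ← sum_rotate fun i j k => Pool.LT.Afun a (th i) (th j) (th k) * T i j k]
    refine Finset.sum_congr rfl fun i _ => Finset.sum_congr rfl fun j _ =>
      Finset.sum_congr rfl fun k _ => ?_
    rw [hTrot i j k]
  have tot : ∑ i, ∑ j, ∑ k, (Na a (th i) (th j) + Na a (th j) (th k) + Na a (th k) (th i)) * T i j k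
      = ∑ i, ∑ j, ∑ k, (Pool.LT.Afun a (th k) (th i) (th j) + Pool.LT.Afun a (th i) (th j) (th k)
        + Pool.LT.Afun a (th j) (th k) (th i)) * T i j k := by
    refine Finset.sum_congr rfl fun i _ => Finset.sum_congr rfl fun j _ =>
      Finset.sum_congr rfl fun k _ => ?_
    rw [cyc]
  simp only [add_mul, Finset.sum_add_distrib] at tot
  rw [r1, r2, a1, a2] at tot
  have key : 0 ≤ ∑ i, ∑ j, ∑ k, Pool.LT.Afun a (th k) (th i) (th j) * T i j k := by
    have hre : ∑ i, ∑ j, ∑ k, Pool.LT.Afun a (th k) (th i) (th j) * T i j k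
        = ∑ k, ∑ i, ∑ j, Pool.LT.Afun a (th k) (th i) (th j) * T i j k :=
      (sum_rotate fun i j k => Pool.LT.Afun a (th k) (th i) (th j) * T i j k).symm
    rw [hre]
    refine Finset.sum_nonneg fun k _ => ?_
    have hB := (KP.aker ha0 ha1 (hth k)).toPSD n th hth
    have hC := (hB.hadamard hs).dotProduct_mulVec_nonneg (fun j => tau j k)
    have hC2 := (Complex.nonneg_iff.1 hC).1
    refine hC2.trans_eq ?_
    simp only [dotProduct, Matrix.mulVec, Finset.mul_sum, Complex.re_sum]
    refine Finset.sum_congr rfl fun i _ => Finset.sum_congr rfl fun j _ => ?_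
    have htki : tau k i = (starRingEnd ℂ) (tau i k) := by
      rw [ht, ht, map_div₀, Complex.conj_ofReal, add_comm (th k)]
      have := hs.isHermitian.apply k i
      rw [← this]
      rfl
    simp only [hT]
    rw [← Complex.re_ofReal_mul, ht i j, htki]
    congr 1
    simp only [Matrix.hadamard_apply, Matrix.of_apply, Pi.star_apply, Complex.ofReal_div,
      RCLike.star_def]
    ring
  linarith

theorem sinc_eq_integral (d : ℝ) : ∫ a in (0 : ℝ)..1, Real.cos (a * d) = Real.sinc d := by
  by_cases hd : d = 0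
  · simp [hd]
  · rw [Real.sinc_of_ne_zero hd]
    have : ∀ t : ℝ, HasDerivAt (fun t : ℝ => Real.sin (t * d) / d) (Real.cos (t * d)) t := by
      intro t
      have h1 : HasDerivAt (fun t : ℝ => t * d) d t := by
        simpa using (hasDerivAt_id t).mul_const d
      have h2 := h1.sin.div_const d
      refine h2.congr_deriv ?_
      field_simp
    rw [intervalIntegral.integral_eq_sub_of_hasDerivAt (fun t _ => this t)]
    · simp
    · exact (by fun_prop : Continuous fun t : ℝ => Real.cos (t * d)).intervalIntegrable _ _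

theorem L1 {n : ℕ} (th : Fin n → ℝ)
    (hth : ∀ i, th i ∈ Set.Ioo (-(π / 4)) (π / 4)) (sig : Matrix (Fin n) (Fin n) ℂ)
    (hs : sig.PosSemidef) :
    0 ≤ (∑ i, ∑ j, ∑ k, (((Real.sinc (th i - th j) - Real.cos (th i - th j)) /
      (Real.cos (th i + th k) * Real.cos (th j + th k)) : ℝ) : ℂ) *
        (sig i j * sig j k * sig k i)).re := by
  have hpos : ∀ i j, 0 < Real.cos (th i + th j) := fun i j =>
    Real.cos_pos_of_mem_Ioo ⟨by linarith [(hth i).1, (hth j).1], by linarith [(hth i).2, (hth j).2]⟩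
  set tau : Matrix (Fin n) (Fin n) ℂ :=
    Matrix.of fun i j => sig i j / ((Real.cos (th i + th j) : ℝ) : ℂ) with htau
  have ht : ∀ i j, tau i j = sig i j / ((Real.cos (th i + th j) : ℝ) : ℂ) := fun i j => rfl
  rw [sum_re]
  have h1 : ∀ i j k, (Real.sinc (th i - th j) - Real.cos (th i - th j)) /
      (Real.cos (th i + th k) * Real.cos (th j + th k)) * (sig i j * sig j k * sig k i).re
      = ∫ a in (0 : ℝ)..1, Na a (th i) (th j) * (tau i j * tau j k * tau k i).re := by
    intro i j k
    have h2 : (tau i j * tau j k * tau k i).re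
        = (sig i j * sig j k * sig k i).re
          / (Real.cos (th i + th j) * Real.cos (th j + th k) * Real.cos (th i + th k)) := by
      have : tau i j * tau j k * tau k i = ((1 / (Real.cos (th i + th j) * Real.cos (th j + th k)
          * Real.cos (th i + th k)) : ℝ) : ℂ) * (sig i j * sig j k * sig k i) := by
        rw [ht, ht, ht, add_comm (th k) (th i)]
        push_cast
        have c1 : ((Real.cos (th i + th j) : ℝ) : ℂ) ≠ 0 := by exact_mod_cast (hpos i j).ne'
        have c2 : ((Real.cos (th j + th k) : ℝ) : ℂ) ≠ 0 := by exact_mod_cast (hpos j k).ne'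
        have c3 : ((Real.cos (th i + th k) : ℝ) : ℂ) ≠ 0 := by exact_mod_cast (hpos i k).ne'
        push_cast at c1 c2 c3
        field_simp
      rw [this, Complex.re_ofReal_mul]
      ring
    rw [intervalIntegral.integral_mul_const, h2]
    have h3 : ∫ a in (0 : ℝ)..1, Na a (th i) (th j)
        = Real.cos (th i + th j) * (Real.sinc (th i - th j) - Real.cos (th i - th j)) := by
      unfold Na
      rw [intervalIntegral.integral_const_mul, intervalIntegral.integral_sub, sinc_eq_integral]
      · simp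
      · exact (by fun_prop : Continuous fun a : ℝ => Real.cos (a * (th i - th j))).intervalIntegrable
          _ _
      · exact intervalIntegrable_const
    rw [h3]
    have c1 := (hpos i j).ne'
    have c2 := (hpos j k).ne'
    have c3 := (hpos i k).ne'
    field_simp
  simp_rw [h1]
  have hint : ∀ i j k, IntervalIntegrable
      (fun a : ℝ => Na a (th i) (th j) * (tau i j * tau j k * tau k i).re) volume 0 1 := by
    intro i j k
    have : Continuous fun a : ℝ => Na a (th i) (th j) * (tau i j * tau j k * tau k i).re := by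
      unfold Na
      fun_prop
    exact this.intervalIntegrable _ _
  have hcont : ∀ i j, Continuous fun a : ℝ =>
      ∑ k, Na a (th i) (th j) * (tau i j * tau j k * tau k i).re := by
    intro i j
    unfold Na
    fun_prop
  have hcont2 : ∀ i, Continuous fun a : ℝ =>
      ∑ j, ∑ k, Na a (th i) (th j) * (tau i j * tau j k * tau k i).re := by
    intro i
    unfold Na
    fun_prop
  have h2 : ∑ i, ∑ j, ∑ k, (∫ a in (0 : ℝ)..1,
      Na a (th i) (th j) * (tau i j * tau j k * tau k i).re)
      = ∫ a in (0 : ℝ)..1, ∑ i, ∑ j, ∑ k,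
        Na a (th i) (th j) * (tau i j * tau j k * tau k i).re := by
    rw [intervalIntegral.integral_finsetSum fun i _ => (hcont2 i).intervalIntegrable _ _]
    refine Finset.sum_congr rfl fun i _ => ?_
    rw [intervalIntegral.integral_finsetSum fun j _ => (hcont i j).intervalIntegrable _ _]
    refine Finset.sum_congr rfl fun j _ => ?_
    rw [intervalIntegral.integral_finsetSum fun k _ => hint i j k]
  rw [h2]
  refine intervalIntegral.integral_nonneg zero_le_one fun a ha => ?_
  exact core th hth sig hs tau ht ha.1 ha.2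

end Pool.LT20
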