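import Pool.Agent.Work.MP_3242df_h20.Kernel
import Pool.Agent.Work.MP_3242df_lt.Interface

set_option autoImplicit false

open scoped Matrix Real Topology ComplexOrder
open MeasureTheory

namespace Pool.LT20

theorem KP.comp {s t : Set ℝ} {K : ℝ → ℝ → ℝ} (hK : KP s K) (f : ℝ → ℝ)
    (hf : ∀ x ∈ t, f x ∈ s) : KP t (fun x y => K (f x) (f y)) :=
  fun n x hx => hK n (fun i => f (x i)) fun i => hf _ (hx i)

/-- Euler factor -/
theorem KP.eulerFactor {p a : ℝ} (hp : p ∈ Set.Ioo (0 : ℝ) 1) (ha : π ≤ a) :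
    KP (Set.Ioo 0 (π / 2)) (fun x y =>
      (1 - p ^ 2 * ((x + y) ^ 2 / a ^ 2)) / (1 - (x + y) ^ 2 / a ^ 2)) := by
  have hpi := Real.pi_pos
  have ha0 : 0 < a := by linarith
  have h1 : KP (Set.Ioo 0 (π / 2)) (fun x y => 1 / ((a / 2 - x) + (a / 2 - y))) :=
    KP.cauchy (u := fun x => a / 2 - x) fun x hx => by
      have := hx.2
      show 0 < a / 2 - x
      linarith
  have h2 : KP (Set.Ioo 0 (π / 2)) (fun x y => 1 / ((a / 2 + x) + (a / 2 + y))) :=
    KP.cauchy (u := fun x => a / 2 + x) fun x hx => by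
      have := hx.1
      show 0 < a / 2 + x
      linarith
  have hp2 : 0 ≤ 1 - p ^ 2 := by nlinarith [hp.1, hp.2]
  have h3 := (KP.const (Set.Ioo 0 (π / 2)) (c := p ^ 2) (by positivity)).add
    (((h1.add h2).const_mul (c := (1 - p ^ 2) * (a / 2)) (by positivity)))
  refine h3.congr fun x hx y hy => ?_
  have e1 : 0 < a / 2 - x + (a / 2 - y) := by linarith [hx.2, hy.2]
  have e2 : 0 < a / 2 + x + (a / 2 + y) := by linarith [hx.1, hy.1]
  have e3 : (x + y) ^ 2 < a ^ 2 := by nlinarith [hx.1, hy.1, hx.2, hy.2]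
  have e4 : 0 < a ^ 2 - (x + y) ^ 2 := by linarith
  have e5 : 1 - (x + y) ^ 2 / a ^ 2 ≠ 0 := by
    have : 1 - (x + y) ^ 2 / a ^ 2 = (a ^ 2 - (x + y) ^ 2) / a ^ 2 := by field_simp
    rw [this]
    positivity
  have e6 : (1 - p ^ 2 * ((x + y) ^ 2 / a ^ 2)) / (1 - (x + y) ^ 2 / a ^ 2)
      = (a ^ 2 - p ^ 2 * (x + y) ^ 2) / (a ^ 2 - (x + y) ^ 2) := by
    have h7 : 1 - (x + y) ^ 2 / a ^ 2 = (a ^ 2 - (x + y) ^ 2) / a ^ 2 := by field_simp
    have h8 : 1 - p ^ 2 * ((x + y) ^ 2 / a ^ 2) = (a ^ 2 - p ^ 2 * (x + y) ^ 2) / a ^ 2 := by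
      field_simp
    rw [h7, h8]
    field_simp
  rw [e6]
  have e7 : a / 2 - x + (a / 2 - y) = a - (x + y) := by ring
  have e8 : a / 2 + x + (a / 2 + y) = a + (x + y) := by ring
  rw [e7] at e1 ⊢
  rw [e8] at e2 ⊢
  have e9 : a ^ 2 - (x + y) ^ 2 = (a - (x + y)) * (a + (x + y)) := by ring
  rw [e9]
  field_simp
  ring

theorem KP.sinRatio {p : ℝ} (hp : p ∈ Set.Ioo (0 : ℝ) 1) :
    KP (Set.Ioo 0 (π / 2)) (fun x y => Real.sin (p * (x + y)) / Real.sin (x + y)) := by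
  have hpi := Real.pi_pos
  refine KP.tendsto (K := fun n x y => p * ∏ j ∈ Finset.range n,
      ((1 - p ^ 2 * ((x + y) ^ 2 / (π * ((j : ℝ) + 1)) ^ 2)) /
        (1 - (x + y) ^ 2 / (π * ((j : ℝ) + 1)) ^ 2))) ?_ ?_
  · intro n
    refine KP.const_mul ?_ hp.1.le
    refine KP.prod (K := fun (j : ℕ) x y => (1 - p ^ 2 * ((x + y) ^ 2 / (π * ((j : ℝ) + 1)) ^ 2)) /
        (1 - (x + y) ^ 2 / (π * ((j : ℝ) + 1)) ^ 2)) fun j _ => ?_
    refine KP.eulerFactor hp ?_
    have : (0 : ℝ) ≤ j := Nat.cast_nonneg j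
    nlinarith
  · intro x hx y hy
    have hS0 : 0 < x + y := by linarith [hx.1, hy.1]
    have hS1 : x + y < π := by linarith [hx.2, hy.2]
    set S := x + y with hS
    have hsin : Real.sin S ≠ 0 := (Real.sin_pos_of_pos_of_lt_pi hS0 hS1).ne'
    have t1 := Real.tendsto_euler_sin_prod (S / π)
    have t2 := Real.tendsto_euler_sin_prod (p * S / π)
    have r1 : π * (S / π) = S := by field_simp
    have r2 : π * (p * S / π) = p * S := by field_simp
    rw [r1] at t1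
    rw [r2] at t2
    have t3 := t2.div t1 hsin
    refine t3.congr fun n => ?_
    simp only [Pi.div_apply]
    have hprod : (∏ j ∈ Finset.range n, ((1 : ℝ) - (S / π) ^ 2 / ((j : ℝ) + 1) ^ 2)) ≠ 0 := by
      rw [Finset.prod_ne_zero_iff]
      intro j _
      have hj : (0 : ℝ) ≤ j := Nat.cast_nonneg j
      have h1 : (S / π) ^ 2 < 1 := by
        have : S / π < 1 := (div_lt_one hpi).2 hS1
        have h0 : 0 < S / π := by positivity
        nlinarith
      have h2 : (1 : ℝ) ≤ ((j : ℝ) + 1) ^ 2 := by nlinarith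
      have h3 : (S / π) ^ 2 / ((j : ℝ) + 1) ^ 2 < 1 := by
        rw [div_lt_one (by positivity)]
        linarith
      linarith
    have hcongr : ∀ j : ℕ, ((1 - p ^ 2 * (S ^ 2 / (π * ((j : ℝ) + 1)) ^ 2)) /
        (1 - S ^ 2 / (π * ((j : ℝ) + 1)) ^ 2))
        = (1 - (p * S / π) ^ 2 / ((j : ℝ) + 1) ^ 2) / (1 - (S / π) ^ 2 / ((j : ℝ) + 1) ^ 2) := by
      intro j
      have hj : (0 : ℝ) < (j : ℝ) + 1 := by positivity
      have a1 : p ^ 2 * (S ^ 2 / (π * ((j : ℝ) + 1)) ^ 2) = (p * S / π) ^ 2 / ((j : ℝ) + 1) ^ 2 := by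
        field_simp
      have a2 : S ^ 2 / (π * ((j : ℝ) + 1)) ^ 2 = (S / π) ^ 2 / ((j : ℝ) + 1) ^ 2 := by
        field_simp
      rw [a1, a2]
    simp_rw [hcongr]
    rw [Finset.prod_div_distrib]
    field_simp

/-- Lemma H -/
theorem KP.lemmaH {p phi : ℝ} (hp : p ∈ Set.Ioo (0 : ℝ) 1) (hphi : |phi| ≤ (1 - p) * (π / 2)) :
    KP (Set.Ioo (-(π / 4)) (π / 4))
      (fun x y => Real.cos (p * (x + y) + phi) / Real.cos (x + y)) := by
  have hpi := Real.pi_pos
  have hs1 : 0 < Real.sin (p * (π / 2)) := by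
    refine Real.sin_pos_of_pos_of_lt_pi ?_ ?_
    · have := hp.1; positivity
    · nlinarith [hp.1, hp.2]
  have hc1 : 0 < Real.cos (p * (π / 2)) := by
    refine Real.cos_pos_of_mem_Ioo ⟨?_, ?_⟩
    · have := hp.1
      have : 0 < p * (π / 2) := by positivity
      linarith
    · nlinarith [hp.1, hp.2]
  have hphi' := abs_le.1 hphi
  have hA : 0 ≤ Real.cos (phi - p * (π / 2)) := by
    refine Real.cos_nonneg_of_mem_Icc ⟨?_, ?_⟩
    · nlinarith [hphi'.1]
    · nlinarith [hphi'.2, mul_pos hp.1 hpi]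
  have hB : 0 ≤ Real.cos (phi + p * (π / 2)) := by
    refine Real.cos_nonneg_of_mem_Icc ⟨?_, ?_⟩
    · nlinarith [hphi'.1, mul_pos hp.1 hpi]
    · nlinarith [hphi'.2]
  have k1 : KP (Set.Ioo (-(π / 4)) (π / 4)) (fun x y =>
      Real.sin (p * ((π / 4 - x) + (π / 4 - y))) / Real.sin ((π / 4 - x) + (π / 4 - y))) :=
    (KP.sinRatio hp).comp (fun x => π / 4 - x) fun x hx => ⟨by linarith [hx.2], by linarith [hx.1]⟩
  have k2 : KP (Set.Ioo (-(π / 4)) (π / 4)) (fun x y =>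
      Real.sin (p * ((π / 4 + x) + (π / 4 + y))) / Real.sin ((π / 4 + x) + (π / 4 + y))) :=
    (KP.sinRatio hp).comp (fun x => π / 4 + x) fun x hx => ⟨by linarith [hx.1], by linarith [hx.2]⟩
  have k3 := (k1.const_mul (c := Real.cos (phi - p * (π / 2)) /
      (2 * Real.sin (p * (π / 2)) * Real.cos (p * (π / 2)))) (by positivity)).add
    (k2.const_mul (c := Real.cos (phi + p * (π / 2)) /
      (2 * Real.sin (p * (π / 2)) * Real.cos (p * (π / 2)))) (by positivity))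
  refine k3.congr fun x hx y hy => ?_
  have hcos : 0 < Real.cos (x + y) :=
    Real.cos_pos_of_mem_Ioo ⟨by linarith [hx.1, hy.1], by linarith [hx.2, hy.2]⟩
  have s1 : Real.sin ((π / 4 - x) + (π / 4 - y)) = Real.cos (x + y) := by
    have : (π / 4 - x) + (π / 4 - y) = π / 2 - (x + y) := by ring
    rw [this, Real.sin_pi_div_two_sub]
  have s2 : Real.sin ((π / 4 + x) + (π / 4 + y)) = Real.cos (x + y) := by
    have : (π / 4 + x) + (π / 4 + y) = (x + y) + π / 2 := by ring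
    rw [this, Real.sin_add_pi_div_two]
  have s3 : Real.sin (p * ((π / 4 - x) + (π / 4 - y)))
      = Real.sin (p * (π / 2)) * Real.cos (p * (x + y))
        - Real.cos (p * (π / 2)) * Real.sin (p * (x + y)) := by
    have : p * ((π / 4 - x) + (π / 4 - y)) = p * (π / 2) - p * (x + y) := by ring
    rw [this, Real.sin_sub]
  have s4 : Real.sin (p * ((π / 4 + x) + (π / 4 + y)))
      = Real.sin (p * (π / 2)) * Real.cos (p * (x + y))
        + Real.cos (p * (π / 2)) * Real.sin (p * (x + y)) := by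
    have : p * ((π / 4 + x) + (π / 4 + y)) = p * (π / 2) + p * (x + y) := by ring
    rw [this, Real.sin_add]
  rw [s1, s2, s3, s4, Real.cos_add (p * (x + y)) phi, Real.cos_sub phi, Real.cos_add phi]
  clear k1 k2 k3 s1 s2 s3 s4 hA hB
  generalize Real.sin (p * (π / 2)) = S at *
  generalize Real.cos (p * (π / 2)) = C at *
  generalize Real.cos (x + y) = D at *
  field_simp
  ring

open scoped MatrixOrder in
theorem posSemidef_ofReal {n : ℕ} {A : Matrix (Fin n) (Fin n) ℝ} (hA : A.PosSemidef) :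
    (A.map (fun r : ℝ => (r : ℂ))).PosSemidef := by
  classical
  obtain ⟨B, hB⟩ := CStarAlgebra.nonneg_iff_eq_star_mul_self.mp hA.nonneg
  have : A.map (fun r : ℝ => (r : ℂ))
      = (B.map (fun r : ℝ => (r : ℂ)))ᴴ * (B.map (fun r : ℝ => (r : ℂ))) := by
    rw [hB]
    ext i j
    simp [Matrix.mul_apply, Matrix.conjTranspose_apply, Matrix.star_apply]
  rw [this]
  exact Matrix.posSemidef_conjTranspose_mul_self _

theorem KP.toPSD {s : Set ℝ} {K : ℝ → ℝ → ℝ} (h : KP s K) : Pool.LT.PSDKer s K := by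
  intro n x hx
  exact posSemidef_ofReal (h n x hx)

end Pool.LT20
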